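import Pool.Agent.Helper7_PAR.Defs

/-!
# Cosets of matrix groups over the field with two elements and parity-P (MP_0fc649_lc)

Definitions used in the statement of the theorem.
-/

namespace Pool.Agent.COS

open Pool.Agent.PAR

/-- The group of the invertible `n × n` matrices over the field with two elements. -/
abbrev Gr (n : ℕ) : Type := Matrix.GeneralLinearGroup (Fin n) (ZMod 2)

/-- The entries of an `n × n` matrix over the field with two elements, row by row, as a Boolean
vector. -/
def ent {n : ℕ} (A : Matrix (Fin n) (Fin n) (ZMod 2)) : Fin (n * n) → Bool :=
  fun k => decide (A k.divNat k.modNat = 1)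

/-- The word of the entries of a matrix, row by row. -/
def enc {n : ℕ} (A : Matrix (Fin n) (Fin n) (ZMod 2)) : Word := List.ofFn (ent A)

/-- The invertible matrices `A` of size `d |x|` over the field with two elements such that `V`
accepts `x` together with the word of the entries of `A`. -/
def matSols (V : Word × Word → Bool) (d : Polynomial ℕ) (x : Word) :
    Set (Gr (d.eval x.length)) :=
  {A | V (x, enc A.1) = true}

/-- `W` is closed under `a b⁻¹ c`; a nonempty set is closed under `a b⁻¹ c` if and only if it is a
coset of a subgroup. -/
def Heap {H : Type} [Group H] (W : Set H) : Prop :=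
  ∀ a ∈ W, ∀ b ∈ W, ∀ c ∈ W, a * b⁻¹ * c ∈ W

end Pool.Agent.COS
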