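import Pool.Agent.COS.Defs

/-!
# Tensor isomorphism over the field with two elements (MP_0fc649_lc)
-/

namespace Pool.Agent.COS

open Pool.Agent.PAR

/-- The `n × n × n` tensor over the field with two elements whose `n ^ 3` entries are written in
the word `w` from the position `o` on. -/
def tens (n : ℕ) (w : Word) (o : ℕ) (i j k : Fin n) : ZMod 2 :=
  if w.getD (o + ((i : ℕ) * n + j) * n + k) false then 1 else 0

/-- Two `n × n × n` tensors over the field with two elements are isomorphic. -/
def TIso {n : ℕ} (T T' : Fin n → Fin n → Fin n → ZMod 2) : Prop :=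
  ∃ A B C : Gr n, ∀ i j k : Fin n,
    ∑ a, ∑ b, ∑ c, A.1 i a * B.1 j b * C.1 k c * T a b c = T' i j k

/-- The language of the pairs of isomorphic `n × n × n` tensors over the field with two
elements: the words of length `2 n ^ 3` whose two halves are the entries of isomorphic tensors. -/
def TensorIso : Set Word :=
  {w | ∃ n : ℕ, w.length = 2 * n ^ 3 ∧ TIso (tens n w 0) (tens n w (n ^ 3))}

end Pool.Agent.COS
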