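import Pool.Agent.COS.Defs
import Pool.Agent.Helper7_PAR.Core

/-!
# Squad COS (MP_0fc649_lc): statements

MAIN THEOREM (T5).  If the witness set `W_x`, a set of invertible matrices over `F_2`, is for
every `x` closed under `a b⁻¹ c` (a coset or empty), then the language is in parity-P.

Every row has to be proved in `Pool/Agent/HelperNN_COS/XXX.lean`, namespace
`Pool.Agent.COS.HNN`, `theorem xxx (hypotheses) : XxxStmt`.
-/

namespace Pool.Agent.COS

open Pool.Agent.PAR

/-! ## Group theory -/

/-- **GRP** (no hypotheses, 70 lines).  A group `H` acts on a finite set `X` with an odd number of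
elements, `W ⊆ H` is nonempty and closed under `a b⁻¹ c`; then the number of the pairs `(s, t)`
with `w s = t` for some `w ∈ W` is odd.

Proof.  Choose `g ∈ W` and let `K = W g⁻¹`, a subgroup (`1 = g g⁻¹`; `(a g⁻¹) (b g⁻¹) = (a g⁻¹ b)
g⁻¹`; `(a g⁻¹)⁻¹ = g a⁻¹ = (g a⁻¹ g) g⁻¹`).  Then `w s = t` for some `w ∈ W` iff
`k (g s) = t` for some `k ∈ K`.  The map `(s, t) ↦ (g s, t)` is a bijection of `X × X`, so the
number is that of the pairs `(s', t)` with `t ∈ K s'`.  This relation is symmetric and reflexive:
exchanging the two entries is an involution of the set of these pairs whose fixed points are the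
`|X|` diagonal pairs.  (For instance `Finset.sum_involution` in `ZMod 2` for the off-diagonal
pairs, or `Function.Involutive.card_...`.) -/
def GrpStmt : Prop := ∀ (H X : Type) [Group H] [MulAction H X] [Finite X] (W : Set H),
  W.Nonempty → Heap W → Odd (Nat.card X) →
    Odd {p : X × X | ∃ w ∈ W, w • p.1 = p.2}.ncard

/-- Upper unitriangular matrices. -/
def IsUni {n : ℕ} (A : Matrix (Fin n) (Fin n) (ZMod 2)) : Prop :=
  (∀ i, A i i = 1) ∧ ∀ i j, j < i → A i j = 0

/-- `r` is the row of the first nonzero entry of the column `i` of `A`. -/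
def Lead {n : ℕ} (A : Matrix (Fin n) (Fin n) (ZMod 2)) (r i : Fin n) : Prop :=
  A r i = 1 ∧ ∀ s < r, A s i = 0

/-- `A` is column-reduced: if `r` is the row of the first nonzero entry of the column `i`, then
the later columns have the entry `0` in the row `r`. -/
def Red {n : ℕ} (A : Matrix (Fin n) (Fin n) (ZMod 2)) : Prop :=
  ∀ i j, i < j → ∀ r, Lead A r i → A r j = 0

/-- **CRD** (no hypotheses, 120 lines).  The upper unitriangular matrices form a subgroup of odd
index.

Proof.  Subgroup: products are clear (`(A B) i i = 1`, `(A B) i j = 0` for `j < i`); for the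
inverses: the set is finite and closed under products, so it contains the inverses
(`Subgroup` from a submonoid of a finite group: `A⁻¹ = A ^ (orderOf A - 1)`).  The order of
`Gr n` is `∏ i : Fin n, (2 ^ n - 2 ^ i)` (`Matrix.card_GL_field`), which is
`(∏ i, 2 ^ i) * ∏ i, (2 ^ (n - i) - 1)`, the second factor odd.  The number of the unitriangular
matrices is `2 ^ #{(i, j) | i < j} = ∏ j : Fin n, 2 ^ j` (a bijection with the families
`j ↦ (Fin j → ZMod 2)`, or with functions on the pairs `i < j`).  Lagrange: index times order of
the subgroup equals the order of the group (`Subgroup.card_mul_index` or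
`Subgroup.card_eq_card_quotient_mul_card_subgroup`), so the index is `∏ i, (2 ^ (n - i) - 1)`,
odd.  (Any other proof is welcome.) -/
def CrdStmt : Prop := ∀ n : ℕ, ∃ U : Subgroup (Gr n),
  (∀ u, u ∈ U ↔ IsUni u.1) ∧ Odd (Nat.card (Gr n ⧸ U))

/-- **RED** (no hypotheses, 150 lines).  Every left coset `g U` of the group `U` of the upper
unitriangular matrices contains exactly one column-reduced matrix.

Proof.  EXISTENCE: in the finite set of the matrices `g u`, `u` unitriangular, take the one whose
entries, read column after column, every column from the row `0` downwards, are least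
lexicographically (`0 < 1`; for instance a minimum for the linear order of `Lex` functions, or of
the number with these binary digits).  If it were not reduced, take `i < j` and `r` with
`Lead A r i` and `A r j = 1`, and add the column `i` to the column `j` (multiplication on the
right by the unitriangular matrix `1 + E_ij`, see `Matrix.transvection`): the columns before `j`
are unchanged, in the column `j` the entries of the rows `< r` are unchanged (as `A s i = 0` for
`s < r`) and that of the row `r` becomes `1 + 1 = 0`: smaller.  UNIQUENESS: let `A` and `A u` be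
both reduced and invertible, `u` unitriangular, `u ≠ 1`.  Let `j` be the first column in which `u`
differs from the identity, and `i < j` the least index with `u i j = 1`.  The first `j` columns of
`A` and of `A u` are equal.  Let `r` be the row with `Lead A r i` (exists, as the column `i` of an
invertible matrix is not zero).  As `A` and `A u` are reduced, `A r j = 0 = (A u) r j`, and
`(A u) r j = A r j + ∑ i' < j, A r i' * u i' j = ∑_{i ≤ i' < j} A r i' * u i' j`; for `i' > i` the
entry `A r i'` is `0` as `A` is reduced, so the sum is `A r i * u i j = 1`: contradiction. -/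
def RedStmt : Prop := ∀ (n : ℕ) (g : Gr n),
  ∃! a : Gr n, Red a.1 ∧ ∃ u : Gr n, IsUni u.1 ∧ g = a * u

/-- **PRS** (from GRP, CRD, RED; 80 lines).  For a nonempty set `W` of invertible matrices closed
under `a b⁻¹ c` the number of the pairs `(a, a')` of reduced matrices with `a' u a⁻¹ ∈ W` for some
unitriangular `u` is odd.

Proof.  Take `U` from CRD, `X = Gr n ⧸ U` with the action of `Gr n` by left multiplication, and
GRP.  By RED the map `a ↦ a U` is a bijection from the reduced matrices onto `X`, and
`w • (a U) = a' U` iff `a'⁻¹ w a` is unitriangular iff `w = a' u a⁻¹` for a unitriangular `u`. -/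
def PrsStmt : Prop := ∀ (n : ℕ) (W : Set (Gr n)), W.Nonempty → Heap W →
  Odd {p : Gr n × Gr n | Red p.1.1 ∧ Red p.2.1 ∧ ∃ u : Gr n, IsUni u.1 ∧
    p.2 * u * p.1⁻¹ ∈ W}.ncard

/-! ## Homogeneous sets of Boolean vectors and frames -/

/-- `k` is a pivot of `W`: two elements of `W` agree before `k` and differ at `k`. -/
def Pvt {N : ℕ} (W : Set (Fin N → Bool)) (k : Fin N) : Prop :=
  ∃ y ∈ W, ∃ z ∈ W, (∀ j < k, y j = z j) ∧ y k ≠ z k

/-- `W` is homogeneous: for every pivot `k` and every `y ∈ W` there is `z ∈ W` which agrees with
`y` before `k` and differs from `y` at `k`. -/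
def Homog {N : ℕ} (W : Set (Fin N → Bool)) : Prop :=
  ∀ k, Pvt W k → ∀ y ∈ W, ∃ z ∈ W, (∀ j < k, y j = z j) ∧ y k ≠ z k

/-- data of frames: a set of coordinates, a vector, two families of vectors -/
abbrev Fr (N : ℕ) : Type :=
  (Fin N → Bool) × (Fin N → Bool) × (Fin N → Fin N → Bool) × (Fin N → Fin N → Bool)

/-- A frame `(Q, y, z, z')` of `W`: `y ∈ W` is zero on `Q`; for `i ∈ Q` the vectors `z i` and
`z' i` are in `W`, agree before `i`, `z i i = 1`, `z' i i = 0`, and both are zero on `Q` outside
`i`; for `i ∉ Q` they are zero. -/
structure IsFrame {N : ℕ} (W : Set (Fin N → Bool)) (f : Fr N) : Prop where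
  mem : f.2.1 ∈ W
  zer : ∀ i, f.1 i = true → f.2.1 i = false
  row : ∀ i, f.1 i = true → f.2.2.1 i ∈ W ∧ f.2.2.2 i ∈ W
  one : ∀ i, f.1 i = true → f.2.2.1 i i = true ∧ f.2.2.2 i i = false
  pre : ∀ i, f.1 i = true → ∀ j < i, f.2.2.1 i j = f.2.2.2 i j
  red : ∀ i, f.1 i = true → ∀ j, j ≠ i → f.1 j = true →
    f.2.2.1 i j = false ∧ f.2.2.2 i j = false
  out : ∀ i, f.1 i = false → ∀ j, f.2.2.1 i j = false ∧ f.2.2.2 i j = false

/-- **FRM** (no hypotheses, 200 lines).  A nonempty homogeneous set has an odd number of frames.

Proof.  Let `P` be the set of the pivots.  (1) Two elements of `W` which agree at all pivots `< k`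
agree at all coordinates `< k` (the first coordinate at which they differ is a pivot).  (2) For
every `b : Fin N → Bool` there is `y ∈ W` with `y k = b k` for all pivots `k` (induction on the
length of the prefix, using homogeneity to change a wrong value at a pivot while keeping the
coordinates before it).  So `W` is in bijection with the functions on `P`.  (3) For a set `Q` of
coordinates let `n(Q)` be the number of `y ∈ W` which are zero on `Q`, and `r(Q)` the number of
the pairs of families `(z, z')` as in `IsFrame`: the number of frames is `∑ Q, n(Q) * r(Q)`.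
If `Q` contains a coordinate which is not a pivot, `r(Q) = 0` (by `row`, `one`, `pre`).  If
`Q ⊆ P`, `Q ≠ P`, then `n(Q) = 2 ^ |P - Q|` is even by (1), (2).  If `Q = P`, then `n(P) = 1` and
`r(P) = 1`: for `i ∈ P` the vector `z i` must be the element of `W` which is `1` at `i` and `0` at
the other pivots, `z' i` the element which is zero at all pivots, and these agree before `i` by
(1).  -/
def FrmStmt : Prop := ∀ (N : ℕ) (W : Set (Fin N → Bool)), Homog W → W.Nonempty →
  Odd {f : Fr N | IsFrame W f}.ncard

/-- **HOM** (no hypotheses, 100 lines).  The entries (row by row) of a set of unitriangular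
matrices closed under `a b⁻¹ c` form a homogeneous set.

Proof.  Let `u, v ∈ W` agree before the position `k = (i, j)` and differ at `k`, let `w ∈ W`.
Put `m = v u⁻¹`, unitriangular, and `w' = m w = v u⁻¹ w ∈ W`.  (a) The rows of `m` with index
`< i` are those of the identity, and `m i l = 0` for `i < l < j`, `m i j = 1` (so `i < j`).
Indeed `v = m u`: for a position `(i', j')`, as `m` and `u` are unitriangular,
`v i' j' = ∑_{i' ≤ l ≤ j'} m i' l * u l j' = u i' j' + m i' j' + ∑_{i' < l < j'} m i' l * u l j'`
for `i' < j'`; induction on `j'` (for fixed `i'`) gives `m i' j' = 0` as long as `v` and `u` agree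
at `(i', l)` for all `l ≤ j'`, and `m i j = 1` for the first difference.  (b) In the same way
`w' = m w` has the same entries as `w` at all positions before `k` (row-major order), and
`w' i j = w i j + m i j = w i j + 1`. -/
def HomStmt : Prop := ∀ (n : ℕ) (W : Set (Gr n)), Heap W → (∀ u ∈ W, IsUni u.1) →
  Homog {w | ∃ u ∈ W, ent u.1 = w}

/-! ## Tuples -/

/-- The entries of the unitriangular matrices `u` with `a' u a⁻¹ ∈ W`. -/
def Sec {n : ℕ} (W : Set (Gr n)) (a a' : Gr n) : Set (Fin (n * n) → Bool) :=
  {w | ∃ u : Gr n, (IsUni u.1 ∧ a' * u * a⁻¹ ∈ W) ∧ ent u.1 = w}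

/-- Two reduced matrices `a`, `a'` and a frame of `Sec W a a'`. -/
def Tup {n : ℕ} (W : Set (Gr n)) (t : Gr n × Gr n × Fr (n * n)) : Prop :=
  Red t.1.1 ∧ Red t.2.1.1 ∧ IsFrame (Sec W t.1 t.2.1) t.2.2

/-- **SUM** (from PRS, FRM, HOM; 100 lines).  If `W` is closed under `a b⁻¹ c`, the number of the
tuples is odd if and only if `W` is nonempty.

Proof.  If `W` is empty then `Sec` is empty, there are no frames (field `mem`), no tuples.  If
`W` is not empty: the number of the tuples is the sum over the pairs `(a, a')` of reduced matrices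
of the number of frames of `Sec W a a'`, which is zero if `Sec W a a'` is empty, and odd
otherwise: the set of the unitriangular `u` with `a' u a⁻¹ ∈ W` is closed under `u v⁻¹ w`
(`a' u a⁻¹ (a' v a⁻¹)⁻¹ a' w a⁻¹ = a' u v⁻¹ w a⁻¹`; unitriangular matrices are closed under
products and inverses), so HOM and FRM apply.  So the number of the tuples is congruent modulo 2
to that of the pairs with `Sec W a a' ≠ ∅`, which is odd by PRS. -/
def SumStmt : Prop := ∀ (n : ℕ) (W : Set (Gr n)), Heap W →
  (Odd {t : Gr n × Gr n × Fr (n * n) | Tup W t}.ncard ↔ W.Nonempty)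

/-! ## Words -/

/-- the entry `(i, j)` of the `n × n` matrix written row by row in the word `w` -/
def gt (n : ℕ) (w : Word) (i j : ℕ) : Bool := w.getD (i * n + j) false

/-- the product of two `n × n` matrices over `F_2` written in words -/
def mulW (n : ℕ) (a b : Word) : Word :=
  (List.range (n * n)).map fun k => decide
    (((List.range n).countP fun l => gt n a (k / n) l && gt n b l (k % n)) % 2 = 1)

/-- the identity matrix -/
def oneW (n : ℕ) : Word := (List.range (n * n)).map fun k => decide (k / n = k % n)

/-- the matrix is column-reduced -/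
def redW (n : ℕ) (a : Word) : Bool :=
  decide (∀ i < n, decide (∀ j < n, (!decide (i < j) || decide (∀ r < n,
    (!(gt n a r i && decide (∀ s < n, (!decide (s < r) || !gt n a s i) = true)) ||
      !gt n a r j) = true)) = true) = true)

/-- the matrix is upper unitriangular -/
def uniW (n : ℕ) (u : Word) : Bool :=
  decide (∀ i < n, (gt n u i i && decide (∀ j < n, (!decide (j < i) || !gt n u i j) = true))
    = true)

/-- `u` is unitriangular and `V` accepts `a' u b` -/
def inW (V : Word × Word → Bool) (n : ℕ) (x a' b u : Word) : Bool :=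
  decide (u.length = n * n) && uniW n u && V (x, mulW n (mulW n a' u) b)

/-- the `i`-th block of length `N` of the word `w` -/
def blW (N : ℕ) (w : Word) (i : ℕ) : Word := (w.drop (i * N)).take N

/-- `(Q, y, Z, Z')` is a frame of the set of the words of length `N` accepted by `f` -/
def frameW (f : Word → Bool) (N : ℕ) (Q y Z Z' : Word) : Bool :=
  f y && decide (∀ i < N, (!Q.getD i false || !y.getD i false) = true) &&
    decide (∀ i < N, (if Q.getD i false then
      f (blW N Z i) && f (blW N Z' i) && (blW N Z i).getD i false && !(blW N Z' i).getD i false &&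
      decide (∀ j < N, (!decide (j < i) || decide ((blW N Z i).getD j false =
        (blW N Z' i).getD j false)) = true) &&
      decide (∀ j < N, (decide (j = i) || !Q.getD j false ||
        (!(blW N Z i).getD j false && !(blW N Z' i).getD j false)) = true)
    else decide (∀ j < N, (!(blW N Z i).getD j false && !(blW N Z' i).getD j false) = true))
      = true)

/-- The certificate `c`: the words `a, b, a', b', Q, y` of length `N = n * n` and the words
`Z, Z'` of length `N * N`, one after the other; `a b = 1`, `a' b' = 1`, `a` and `a'` are reduced,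
and `(Q, y, Z, Z')` is a frame. -/
def val (V : Word × Word → Bool) (n : ℕ) (x c : Word) : Bool :=
  decide (c.length = 6 * (n * n) + 2 * ((n * n) * (n * n))) &&
  decide (mulW n (blW (n * n) c 0) (blW (n * n) c 1) = oneW n) &&
  decide (mulW n (blW (n * n) c 2) (blW (n * n) c 3) = oneW n) &&
  redW n (blW (n * n) c 0) && redW n (blW (n * n) c 2) &&
  frameW (inW V n x (blW (n * n) c 2) (blW (n * n) c 1)) (n * n) (blW (n * n) c 4)
    (blW (n * n) c 5) (c.drop (6 * (n * n))) (c.drop (6 * (n * n) + (n * n) * (n * n)))

/-- **MCH** (no hypotheses, 100 lines; the calculus `FP` of `Helper7_PAR/Mach.lean`,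
`Helper87_UT/Num.lean`).  The check of the certificates is computable in polynomial time.

Proof.  `polyPair_of'` of `Helper7_PAR/Mach.lean`: it is enough to show
`FPB m (fun ρ => val V (d.eval (A ρ).length) (A ρ) (B ρ))` for `FPW m A`, `FPW m B`.  Helper
lemmas: for `FPN m n`, `FPW m a`, ...: `FPB m (gt ..)` (`FPW.getD`), `FPW m (mulW ..)`
(`FPW.range`, `FPN.count`, `FPN.mod`, `FPN.div`), `FPW m (oneW ..)`, `FPB m (redW ..)`,
`FPB m (uniW ..)` (`FPB.all`), `FPB m (inW ..)` (`FPB.call2`), `FPW m (blW ..)`, `FPB m
(frameW ..)` for `f` given by `FPB` in the extended contexts (state it for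
`f = fun ρ u => inW V (n ρ) (x ρ) (a' ρ) (b ρ) u` directly), `FPW.eq`, `FPB.eqN`, `FPB.ltN`. -/
def MchStmt : Prop := ∀ (V : Word × Word → Bool) (d : Polynomial ℕ), PolyPair V →
  PolyPair (fun z => val V (d.eval z.1.length) z.1 z.2)

/-- **WRA** (no hypotheses, 150 lines).  Words of matrices: for `A, B` matrices,
`mulW n (enc A) (enc B) = enc (A * B)`, `oneW n = enc 1`, `redW`, `uniW` mean `Red`, `IsUni`,
every word of length `n * n` is the word of a unique matrix.

Proof.  `enc A` has the length `n * n` and the letter `i * n + j` is `decide (A i j = 1)` for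
`i, j < n` (`Fin.divNat`, `Fin.modNat`, `finProdFinEquiv`, `Nat.div_add_mod`); in `ZMod 2` every
element is `0` or `1`, a sum of products of such elements is `1` iff the number of the products
equal to `1` is odd. -/
def WraStmt : Prop := ∀ n : ℕ,
  (∀ A B : Matrix (Fin n) (Fin n) (ZMod 2), mulW n (enc A) (enc B) = enc (A * B)) ∧
  oneW n = enc (1 : Matrix (Fin n) (Fin n) (ZMod 2)) ∧
  (∀ A : Matrix (Fin n) (Fin n) (ZMod 2), (redW n (enc A) = true ↔ Red A) ∧
    (uniW n (enc A) = true ↔ IsUni A)) ∧
  (∀ w : Word, w.length = n * n → ∃ A : Matrix (Fin n) (Fin n) (ZMod 2), enc A = w) ∧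
  (∀ A B : Matrix (Fin n) (Fin n) (ZMod 2), enc A = enc B → A = B) ∧
  (∀ A : Matrix (Fin n) (Fin n) (ZMod 2), (enc A).length = n * n)

/-- **WRB** (no hypotheses, 150 lines).  Words and frames: the map
`(Q, y, z, z') ↦ (ofFn Q, ofFn y, rows of z one after the other, rows of z')` is a bijection from
the data of frames onto the words of length `2 N + 2 N²`, and for every predicate `f` of words
`frameW f N` means `IsFrame` for the set of the Boolean vectors accepted by `f`. -/
def WrbStmt : Prop := ∀ N : ℕ,
  ∃ e : Fr N → Word, Function.Injective e ∧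
    (∀ t, (e t).length = 2 * N + 2 * (N * N)) ∧
    (∀ c : Word, c.length = 2 * N + 2 * (N * N) → ∃ t, e t = c) ∧
    ∀ (f : Word → Bool) (t : Fr N),
      (frameW f N (blW N (e t) 0) (blW N (e t) 1) ((e t).drop (2 * N))
        ((e t).drop (2 * N + N * N)) = true ↔ IsFrame {y | f (List.ofFn y) = true} t)

/-- **WRD** (from WRA, WRB; 150 lines).  The number of the accepted certificates is the number of
the tuples.

Proof.  The map `(a, a', t) ↦ enc a ++ enc a⁻¹ ++ enc a' ++ enc a'⁻¹ ++ e t` with `e` from WRB
(for `N = n * n`) is injective, and its image on the tuples `Tup` is the set of the accepted words: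
for an accepted word, `a b = 1` makes `a` a unit with the inverse `b` (`Matrix.GeneralLinearGroup`,
`Matrix.mul_eq_one_comm`, `Units.mk`), and `inW V n x a' b u` says that `u` is the word of a
unitriangular (hence invertible: determinant `1`, or `Matrix.det_of_upperTriangular`) matrix with
`V (x, enc (a' u b))`, that is `a' u a⁻¹ ∈ W`. -/
def WrdStmt : Prop := ∀ (V : Word × Word → Bool) (n : ℕ) (x : Word),
  {c : Word | val V n x c = true}.ncard =
    {t : Gr n × Gr n × Fr (n * n) | Tup {A : Gr n | V (x, enc A.1) = true} t}.ncard

/-- **MAI** (from SUM, MCH, WRD; 50 lines).  The main theorem.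

Proof.  `InParityP` with the predicate of MCH and the polynomial `6 d² + 2 d⁴`: `witnesses` is the
set of the accepted words, as `val` fixes the length; then WRD and SUM. -/
def MaiStmt : Prop := ∀ (L : Set Word) (V : Word × Word → Bool) (d : Polynomial ℕ), PolyPair V →
  (∀ x, x ∈ L ↔ (matSols V d x).Nonempty) → (∀ x, Heap (matSols V d x)) → InParityP L

end Pool.Agent.COS
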