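import Pool.Agent.COS.Stmts
import Pool.Agent.COS.DefsT

/-!
# Squad COS (MP_0fc649_lc): tensor isomorphism over `F_2` is in parity-P, statements
-/

namespace Pool.Agent.COS

open Pool.Agent.PAR

/-- the block of the index `i`: the blocks `0`, `1`, `2` have `n` elements each, the block `3` is
the rest -/
def blk (n i : ℕ) : ℕ := if i < n then 0 else if i < 2 * n then 1 else if i < 3 * n then 2 else 3

/-- entry `(i, j)` of `M`, zero outside -/
def en {N : ℕ} (M : Matrix (Fin N) (Fin N) (ZMod 2)) (i j : ℕ) : ZMod 2 :=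
  if h : i < N ∧ j < N then M ⟨i, h.1⟩ ⟨j, h.2⟩ else 0

/-- `M` is block diagonal, and its first three diagonal blocks map the tensor `T` to `T'` -/
def BlkSol (n N : ℕ) (T T' : Fin n → Fin n → Fin n → ZMod 2) (M : Matrix (Fin N) (Fin N) (ZMod 2)) :
    Prop :=
  (∀ i j : Fin N, blk n i ≠ blk n j → M i j = 0) ∧
    ∀ i j k : Fin n, ∑ a : Fin n, ∑ b : Fin n, ∑ c : Fin n,
      en M i a * en M (n + j) (n + b) * en M (2 * n + k) (2 * n + c) * T a b c = T' i j k

/-- **TIG** (no hypotheses, 200 lines).  For `3 n ≤ N` the set of the invertible `N × N` matrices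
with `BlkSol` is closed under `a b⁻¹ c`, and it is nonempty if and only if the tensors are
isomorphic.

Proof.  Call `M` block diagonal if `M i j = 0` for `blk i ≠ blk j`.  Block diagonal matrices are
closed under products; the invertible ones are closed under inverses (finite group: a nonempty
subset closed under products is a subgroup, or: `M` is block diagonal iff it commutes with the
diagonal matrices `P_s` of the blocks `s = 0, 1, 2`, and then the inverse commutes too).  For
`s = 0, 1, 2` let `D_s M i a = en M (s n + i) (s n + a)`, an `n × n` matrix; for block diagonal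
`M`, `M'`: `D_s (M M') = D_s M * D_s M'` (the sum over all `l : Fin N` reduces to the block `s`,
which is the image of the injection `i ↦ s n + i` of `Fin n`), `D_s 1 = 1`.  So `D_s` of an
invertible block diagonal matrix is invertible with inverse `D_s M⁻¹`.  CLOSED: write
`(A, B, C) T` for the tensor `∑ a b c, A i a * B j b * C k c * T a b c`; then
`(A A', B B', C C') T = (A, B, C) ((A', B', C') T)` and `(1, 1, 1) T = T`.  If `M₁, M₂, M₃` are
solutions, the tensor of `M₁ M₂⁻¹ M₃` applied to `T` is `M₁ M₂⁻¹ T' = M₁ T = T'`.  NONEMPTY IFF: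
from `M` take `A = D_0 M`, `B = D_1 M`, `C = D_2 M`.  Conversely for `A, B, C` let `M` be the
block diagonal matrix with the blocks `A, B, C` and the identity in the block `3`; this is
multiplicative in `(A, B, C)`, hence invertible with the inverse of the blocks
`A⁻¹, B⁻¹, C⁻¹, 1`. -/
def TigStmt : Prop := ∀ (n N : ℕ) (T T' : Fin n → Fin n → Fin n → ZMod 2), 3 * n ≤ N →
  Heap {M : Gr N | BlkSol n N T T' M.1} ∧
    ((∃ M : Gr N, BlkSol n N T T' M.1) ↔ TIso T T')

/-- **TIM** (no hypotheses, 200 lines; calculus `FP`, see the row MCH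
`Pool/Agent/Helper50_COS/MCH.lean`).  The predicate is decidable in polynomial time.

Proof.  For the words `x`, `y` put `N = 3 |x|` and let `V (x, y)` be the predicate
`∃ n < |x| + 1, |x| = 2 n ^ 3 ∧ (∀ i j < N, blk n i ≠ blk n j → y[i, j] = 0) ∧
∀ i j k < n, (∑ a < n, ∑ b < n, countP over c < n of y[i, a] ∧ y[n + j, n + b] ∧
y[2 n + k, 2 n + c] ∧ x[(a n + b) n + c]) % 2 = 1 ↔ x[n ^ 3 + (i n + j) n + k]`, where
`y[i, j] = gt N y i j`: loops `FPB.all`, `FPB.exists`, `FPN.sum`, `FPN.count`, `FPN.mod`,
`FPW.getD`, `FPB.eqN`, `FPB.ltN`, and `polyPair_of'` of `Helper7_PAR/Mach.lean`.  The entries of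
`enc M` are `decide (M i j = 1)`, and `n ≤ 2 n ^ 3` gives `3 n ≤ N`, so `en` has its main value;
in `ZMod 2` a sum of products is `1` iff the number of the products equal to `1` is odd. -/
def TimStmt : Prop := ∃ V : Word × Word → Bool, PolyPair V ∧
  ∀ (x : Word) (M : Matrix (Fin (3 * x.length)) (Fin (3 * x.length)) (ZMod 2)),
    V (x, enc M) = true ↔ ∃ n : ℕ, x.length = 2 * n ^ 3 ∧
      BlkSol n (3 * x.length) (tens n x 0) (tens n x (n ^ 3)) M

/-- **TIF** (from MAI, TIG, TIM; 60 lines).  Tensor isomorphism over `F_2` is in parity-P.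

Proof.  MAI with `L = TensorIso`, `V` from TIM and `d = 3 X` (`Polynomial.C 3 * Polynomial.X`; the
dimension `d.eval x.length` is `3 * x.length`, rewrite with care: state a lemma for a natural
number `N` with `N = 3 * x.length` and `subst`).  `n` is determined by `|x| = 2 n ^ 3`; if `|x|`
is not of this form, there are no solutions; otherwise TIG with `3 n ≤ 3 |x|`. -/
def TifStmt : Prop := InParityP TensorIso

end Pool.Agent.COS
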